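import Mathlib
import Pool.Agent.U462.Sh.ZAdm

set_option autoImplicit false

/-!
# Totient sums and twin pairs: every exceptional set is possible
-/

namespace Pool.Agent.Results.MP_61a569_nt.AnyExceptionalSet

open Finset Filter
open scoped Topology
open Pool.Agent.U462.Sh.Law

/-- `q(n, k) = φ(k) + φ(n - k) / 2 + 1` -/
def q (n k : ℕ) : ℕ := Nat.totient k + Nat.totient (n - k) / 2 + 1

/-- the `m`-th prime, `p 1 = 2` -/
noncomputable def p (m : ℕ) : ℕ := Nat.nth Nat.Prime (m - 1)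

/-- **Every exceptional set is possible.** For every set `N` of natural numbers there is a set `S` of rough
numbers `≥ 2` such that for `n` in `N` and `1 ≤ k < n - 2`, `q = q(n, k)`, the numbers `p_q - q - 1` and
`p_q - q + 1` are never both in `S`, for which the uniform Hardy–Littlewood law holds for all systems of
linear forms and all intervals, except for those systems with two forms `l, l + 2` for which `l + 1` has in
the interval a value of the form `p_q - q` with such a `q`, and in which the number of the pairs `t, t + 2`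
with `x ≤ t < 2 x` tends to infinity if `x` runs through numbers such that no such value `p_q - q` lies in
`[x, 2 x]`. -/
theorem result : ∀ N : Set ℕ, ∃ S : Set ℕ, (∀ m ∈ S, 2 ≤ m ∧ Rough m) ∧
    (∀ n ∈ N, ∀ k : ℕ, 1 ≤ k → k < n - 2 →
      ¬ (p (q n k) - q n k - 1 ∈ S ∧ p (q n k) - q n k + 1 ∈ S)) ∧
    (∀ K : ℕ, ∃ x₀ : ℕ, ∀ x : ℕ, x₀ ≤ x →
      (∀ n ∈ N, ∀ k : ℕ, 1 ≤ k → k < n - 2 → p (q n k) - q n k ∉ Set.Icc x (2 * x)) →
      K ≤ {t : ℕ | t ∈ S ∧ t + 2 ∈ S ∧ x ≤ t ∧ t < 2 * x}.ncard) ∧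
    LawOn S (fun L u v => ∀ a b : ℤ, (a, b) ∈ L → (a, b + 2) ∈ L → ∀ m : ℕ, u ≤ m → m < v →
      ∀ n ∈ N, ∀ k : ℕ, 1 ≤ k → k < n - 2 → value (a, b) m + 1 ≠ p (q n k) - q n k) := by
  classical
  intro N
  obtain ⟨S, h1, h2, h3⟩ := Pool.Agent.U462.Sh.shiftOn {0, 2} (by simp)
    {t | ∃ n ∈ N, ∃ k : ℕ, 1 ≤ k ∧ k < n - 2 ∧ t + 1 = p (q n k) - q n k}
  have hlaw : LawOn S (fun L u v => ∀ a b : ℤ, (a, b) ∈ L → (a, b + 2) ∈ L → ∀ m : ℕ, u ≤ m → m < v →
      ∀ n ∈ N, ∀ k : ℕ, 1 ≤ k → k < n - 2 → value (a, b) m + 1 ≠ p (q n k) - q n k) := by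
    refine Pool.Agent.U462.Sh.on_mono ?_ h3
    rintro L u v hL a b hab m hm1 hm2 ⟨n, hn, k, hk1, hk2, h4⟩
    exact hL a b (by simpa using hab 0 (by simp)) (by simpa using hab 2 (by simp)) m hm1 hm2 n hn k hk1 hk2 h4
  refine ⟨S, h1, ?_, ?_, hlaw⟩
  · rintro n hn k hk1 hk2 ⟨h4, h5⟩
    have h6 := (h1 _ h4).1
    apply h2 (p (q n k) - q n k - 1) ⟨n, hn, k, hk1, hk2, by omega⟩
    intro d hd
    simp only [mem_insert, mem_singleton] at hd
    rcases hd with rfl | rfl
    · exact h4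
    · have e : p (q n k) - q n k - 1 + 2 = p (q n k) - q n k + 1 := by omega
      rw [e]
      exact h5
  · intro K
    obtain ⟨X0, hX0⟩ := Pool.Agent.U462.Sh.many hlaw {(1, 0), (1, 2)} Pool.Agent.U462.Sh.twin_sys
      Pool.Agent.U462.Sh.twin_adm (1 / 2) (by norm_num) K
    refine ⟨X0 + 2, ?_⟩
    intro x hx hxN
    have hfin : {t : ℕ | t ∈ S ∧ t + 2 ∈ S ∧ x ≤ t ∧ t < 2 * x}.Finite :=
      (Set.finite_Iio (2 * x)).subset (fun t ht => ht.2.2.2)
    refine (hX0 (2 * x) (by omega) x (2 * x) (by omega) le_rfl ?_ ?_ ?_).trans ?_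
    · rw [← Real.sqrt_eq_rpow]
      apply Real.sqrt_le_iff.2
      have hxR : (2 : ℝ) ≤ x := by exact_mod_cast (by omega : 2 ≤ x)
      push_cast
      constructor
      · linarith
      · nlinarith
    · intro m hm1 hm2 l hl
      simp only [mem_insert, mem_singleton] at hl
      have : (2 : ℤ) ≤ m := by exact_mod_cast (by omega : 2 ≤ m)
      rcases hl with rfl | rfl
      · simp only; linarith
      · simp only; linarith
    · intro a b ha hb m hm1 hm2 n hn k hk1 hk2 h4
      simp only [mem_insert, mem_singleton, Prod.mk.injEq] at ha hb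
      have hab : a = 1 ∧ b = 0 := by omega
      obtain ⟨rfl, rfl⟩ := hab
      have e5 : value (1, 0) m = m := by simp [value]
      rw [e5] at h4
      apply hxN n hn k hk1 hk2
      rw [Set.mem_Icc]
      omega
    · unfold count
      apply Set.ncard_le_ncard _ hfin
      rintro m ⟨hm1, hm2, hall⟩
      have h4 := hall (1, 0) (by simp)
      have h5 := hall (1, 2) (by simp)
      have e5 : value (1, 0) m = m := by simp [value]
      have e6 : value (1, 2) m = m + 2 := by
        unfold value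
        omega
      rw [e5] at h4
      rw [e6] at h5
      exact ⟨h4, h5, hm1, hm2⟩

end Pool.Agent.Results.MP_61a569_nt.AnyExceptionalSet
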