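import Pool.Agent.U918.LP.Lin

/-!
# The numbers `p_q - q` plus odd shifts: arbitrary sets of `q`

The question asks for `k` such that `q = φ(k) + φ(n - k) / 2 + 1` and `p_q - q - 1`, `p_q - q + 1` are prime (`p_q` is
the `q`-th prime). Let `w` be ANY bounded real weight on the integers `q ≥ 2`, for example the indicator of the set of
the prime values `φ(k) + φ(n - k) / 2 + 1`, `1 ≤ k < n - 2`, for a given `n`. For all but a share `log ^ (-U) X` of the
vectors `(h₁, …, h_r)` of integers `1 ≤ h_i ≤ B X`, the sum of `w q` over the `q` with `p_q - q ≤ y` for which all the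
numbers `p_q - q - 1 + 2 h_i` are prime is the sum of `w q ∏ 1 / (V z log (p_q - q - 1 + 2 h_i))` over those `q` for which
all the numbers `p_q - q - 1 + 2 h_i` are free of primes `≤ z`, up to an error `X / log ^ D X`; here `z` is a power of
`log X`, `V z = ∏_{p ≤ z} (1 - 1/p)`, and this holds simultaneously for all `y ≤ X` and all residue classes of `p_q - q`
to all moduli up to `log ^ K X`.
-/

set_option autoImplicit false

open Finset

namespace Pool.Agent.Results.MP_61a569_nt.ArbitraryWeights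

/-- the product of `1 - 1/p` over the primes `p ≤ z` -/
noncomputable def V (z : ℕ) : ℝ := ∏ p ∈ (Icc 1 z).filter Nat.Prime, (1 - 1 / (p : ℝ))

/-- `p_q - q`, where `p_q` is the `q`-th prime -/
noncomputable def v (q : ℕ) : ℕ := Nat.nth Nat.Prime (q - 1) - q

open Classical in
/-- the sum of `w q` over the `q ≥ 2` with `p_q - q ≤ y`, `p_q - q ≡ a mod m`, for which all the numbers
`p_q - q - 1 + 2 h i` are prime -/
noncomputable def primeSum {r : ℕ} (w : ℕ → ℝ) (h : Fin r → ℕ) (m a y : ℕ) : ℝ :=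
  ∑ q ∈ (Icc 2 (y + 1)).filter (fun q => v q ≤ y ∧ v q ≡ a [MOD m] ∧ ∀ i, (v q + 2 * h i - 1).Prime), w q

open Classical in
/-- the sum of `w q / ∏ (V z · log (p_q - q - 1 + 2 h i))` over the `q ≥ 2` with `p_q - q ≤ y`, `p_q - q ≡ a mod m`, for
which no prime `l ≤ z` divides any of the numbers `p_q - q - 1 + 2 h i` -/
noncomputable def modelSum {r : ℕ} (z : ℕ) (w : ℕ → ℝ) (h : Fin r → ℕ) (m a y : ℕ) : ℝ :=
  ∑ q ∈ (Icc 2 (y + 1)).filter (fun q => v q ≤ y ∧ v q ≡ a [MOD m] ∧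
    ∀ i, ∀ l : ℕ, l.Prime → l ≤ z → ¬ l ∣ v q + 2 * h i - 1), w q * ∏ i, (V z * Real.log ((v q + 2 * h i - 1 : ℕ) : ℝ))⁻¹

theorem nth_step (k : ℕ) (hk : 1 ≤ k) : Nat.nth Nat.Prime k + 2 ≤ Nat.nth Nat.Prime (k + 1) := by
  have hinf := Nat.infinite_setOfPred_prime
  have h1 : Nat.nth Nat.Prime k < Nat.nth Nat.Prime (k + 1) := Nat.nth_strictMono hinf (Nat.lt_succ_self k)
  have p1 : (Nat.nth Nat.Prime k).Prime := Nat.prime_nth_prime k
  have p2 : (Nat.nth Nat.Prime (k + 1)).Prime := Nat.prime_nth_prime (k + 1)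
  have h0 : Nat.nth Nat.Prime 0 < Nat.nth Nat.Prime k := Nat.nth_strictMono hinf (by omega)
  have h2 : 2 ≤ Nat.nth Nat.Prime 0 := (Nat.prime_nth_prime 0).two_le
  have o1 : Nat.nth Nat.Prime k % 2 = 1 := by
    rcases Nat.Prime.eq_two_or_odd p1 with h | h
    · omega
    · exact h
  have o2 : Nat.nth Nat.Prime (k + 1) % 2 = 1 := by
    rcases Nat.Prime.eq_two_or_odd p2 with h | h
    · omega
    · exact h
  omega

theorem nth_lower (k : ℕ) : 2 * (k + 1) + 1 ≤ Nat.nth Nat.Prime (k + 1) := by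
  induction k with
  | zero =>
      have hinf := Nat.infinite_setOfPred_prime
      have h0 : Nat.nth Nat.Prime 0 < Nat.nth Nat.Prime 1 := Nat.nth_strictMono hinf (by omega)
      have h2 : 2 ≤ Nat.nth Nat.Prime 0 := (Nat.prime_nth_prime 0).two_le
      simp only [zero_add]
      omega
  | succ n ih =>
      have := nth_step (n + 1) (by omega)
      omega

theorem v_lower (q : ℕ) (hq : 2 ≤ q) : q - 1 ≤ v q := by
  obtain ⟨k, rfl⟩ : ∃ k, q = k + 2 := ⟨q - 2, by omega⟩
  unfold v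
  have h := nth_lower k
  have e : k + 2 - 1 = k + 1 := by omega
  rw [e]
  omega

theorem v_lt (q : ℕ) (hq : 2 ≤ q) : v q < v (q + 1) := by
  obtain ⟨k, rfl⟩ : ∃ k, q = k + 2 := ⟨q - 2, by omega⟩
  unfold v
  have h := nth_lower k
  have h2 := nth_step (k + 1) (by omega)
  have e : k + 2 - 1 = k + 1 := by omega
  have e2 : k + 2 + 1 - 1 = k + 1 + 1 := by omega
  rw [e, e2]
  omega

theorem v_strict (a b : ℕ) (ha : 2 ≤ a) (hab : a < b) : v a < v b := by
  induction b with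
  | zero => omega
  | succ n ih =>
      rcases Nat.lt_or_ge a n with h | h
      · exact (ih h).trans (v_lt n (by omega))
      · have : a = n := by omega
        subst this
        exact v_lt a ha

theorem v_inj (a b : ℕ) (ha : 2 ≤ a) (hb : 2 ≤ b) (h : v a = v b) : a = b := by
  rcases lt_trichotomy a b with h1 | h1 | h1
  · have := v_strict a b ha h1
    omega
  · exact h1
  · have := v_strict b a hb h1
    omega

/-- the weight transported to the values -/
noncomputable def tw (w : ℕ → ℝ) (n : ℕ) : ℝ := ∑ q ∈ (Icc 2 (n + 1)).filter (fun q => v q = n), w q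

theorem tw_le (w : ℕ → ℝ) (hw : ∀ q, |w q| ≤ 1) (n : ℕ) : |tw w n| ≤ 1 := by
  unfold tw
  have hc : ((Icc 2 (n + 1)).filter (fun q => v q = n)).card ≤ 1 := by
    rw [card_le_one]
    intro a ha b hb
    rw [mem_filter, mem_Icc] at ha hb
    exact v_inj a b ha.1.1 hb.1.1 (ha.2.trans hb.2.symm)
  calc |∑ q ∈ (Icc 2 (n + 1)).filter (fun q => v q = n), w q|
      ≤ ∑ q ∈ (Icc 2 (n + 1)).filter (fun q => v q = n), |w q| := abs_sum_le_sum_abs _ _
    _ ≤ ∑ q ∈ (Icc 2 (n + 1)).filter (fun q => v q = n), (1 : ℝ) := sum_le_sum fun q _ => hw q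
    _ = (((Icc 2 (n + 1)).filter (fun q => v q = n)).card : ℝ) := by rw [sum_const, nsmul_eq_mul, mul_one]
    _ ≤ 1 := by exact_mod_cast hc

open Classical in
theorem transport (w : ℕ → ℝ) (Q : ℕ → Prop) (g : ℕ → ℝ) (y : ℕ) :
    ∑ q ∈ (Icc 2 (y + 1)).filter (fun q => v q ≤ y ∧ Q (v q)), w q * g (v q) =
      ∑ n ∈ (Icc 1 y).filter Q, tw w n * g n := by
  have h1 : ∀ n ∈ (Icc 1 y).filter Q, tw w n * g n =
      ∑ q ∈ (Icc 2 (y + 1)).filter (fun q => v q ≤ y ∧ Q (v q)), if v q = n then w q * g (v q) else 0 := by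
    intro n hn
    rw [mem_filter, mem_Icc] at hn
    unfold tw
    rw [sum_mul, ← sum_filter]
    apply sum_congr
    · ext q
      rw [mem_filter, mem_filter, mem_filter, mem_Icc, mem_Icc]
      constructor
      · rintro ⟨⟨a1, a2⟩, a3⟩
        rw [a3]
        exact ⟨⟨⟨a1, by omega⟩, hn.1.2, hn.2⟩, rfl⟩
      · rintro ⟨⟨⟨a1, a2⟩, a3, a4⟩, a5⟩
        have := v_lower q a1
        exact ⟨⟨a1, by omega⟩, a5⟩
    · intro q hq
      rw [mem_filter, mem_filter] at hq
      rw [hq.2]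
  rw [sum_congr rfl h1, sum_comm]
  apply sum_congr rfl
  intro q hq
  rw [mem_filter, mem_Icc] at hq
  have h2 := v_lower q hq.1.1
  rw [sum_ite_eq, if_pos]
  rw [mem_filter, mem_Icc]
  exact ⟨⟨by omega, hq.2.1⟩, hq.2.2⟩

open Classical in
/-- **The theorem.** For all `r`, `B`, `U`, `D`, `K` there is `B₀` such that for every `E`, every large `X`, every
integer `z` with `log ^ B₀ X ≤ z ≤ log ^ E X` and EVERY weight `w` with `|w q| ≤ 1`: for all but at most
`X ^ r / log ^ U X` of the vectors `h` of integers `1 ≤ h i ≤ B X`, one has for all `y ≤ X`, all moduli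
`1 ≤ m ≤ log ^ K X` and all classes `a` that `primeSum w h m a y` and `modelSum z w h m a y` differ by at most
`X / log ^ D X`. -/
theorem result (r B U D K : ℕ) :
    ∃ B₀ : ℕ, ∀ E : ℕ, ∃ X₀ : ℕ, ∀ X : ℕ, X₀ ≤ X → ∀ z : ℕ, Real.log X ^ B₀ ≤ z → (z : ℝ) ≤ Real.log X ^ E →
    ∀ w : ℕ → ℝ, (∀ q, |w q| ≤ 1) →
    (((Fintype.piFinset (fun _ : Fin r => Icc 1 (B * X))).filter (fun h =>
      ∃ y ≤ X, ∃ m a : ℕ, 1 ≤ m ∧ (m : ℝ) ≤ Real.log X ^ K ∧
        (X : ℝ) / Real.log X ^ D < |primeSum w h m a y - modelSum z w h m a y|)).card : ℝ) ≤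
      (X : ℝ) ^ r / Real.log X ^ U := by
  obtain ⟨B₀, h0⟩ := Pool.Agent.U918.LP.lin r (fun _ => True) (fun _ => 1) (fun _ => 2) (fun _ => (-1))
    (fun _ => by norm_num) (fun _ => by norm_num) (fun _ => by norm_num) B U D K
  refine ⟨B₀, fun E => ?_⟩
  obtain ⟨x0, hx0⟩ := h0 E
  refine ⟨x0, fun X hX z hz1 hz2 w hw => ?_⟩
  refine le_trans (le_of_eq ?_) (hx0 X hX z hz1 hz2 (tw w) (tw_le w hw))
  have ev : ∀ n h : ℕ, Pool.Agent.U918.LP.lv 1 2 (-1) n h = n + 2 * h - 1 := by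
    intro n h
    unfold Pool.Agent.U918.LP.lv
    push_cast
    omega
  have e1 : ∀ (h : Fin r → ℕ) (q a y : ℕ), primeSum w h q a y =
      Pool.Agent.U918.LP.PL (fun _ => True) (fun _ => 1) (fun _ => 2) (fun _ => (-1)) (tw w) h q a y := by
    intro h q a y
    unfold primeSum Pool.Agent.U918.LP.PL
    simp only [ev, true_and]
    have := transport w (fun n => n ≡ a [MOD q] ∧ ∀ i, (n + 2 * h i - 1).Prime) (fun _ => 1) y
    simp only [mul_one] at this
    convert this
  have e2 : ∀ (h : Fin r → ℕ) (q a y : ℕ), modelSum z w h q a y =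
      Pool.Agent.U918.LP.ML (fun _ => True) (fun _ => 1) (fun _ => 2) (fun _ => (-1)) z (tw w) h q a y := by
    intro h q a y
    unfold modelSum Pool.Agent.U918.LP.ML
    simp only [ev, true_and]
    have := transport w (fun n => n ≡ a [MOD q] ∧ ∀ i, ∀ l : ℕ, l.Prime → l ≤ z → ¬ l ∣ n + 2 * h i - 1)
      (fun n => ∏ i, (V z * Real.log ((n + 2 * h i - 1 : ℕ) : ℝ))⁻¹) y
    have hV : Pool.Agent.H373R2.T7.Vz z = V z := rfl
    rw [hV]
    convert this
  simp only [e1, e2]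

end Pool.Agent.Results.MP_61a569_nt.ArbitraryWeights
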