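import Mathlib
import Pool.Agent.U310.TQ.Pre
import Pool.Agent.U310.TQ.Exi
import Pool.Agent.U894.TQ.SMOOTH
import Pool.Agent.U810.TQ.PIG
import Pool.Agent.U858.TQ.PROD
import Pool.Agent.U375.TQ.CNT
import Pool.Agent.U94.TQ.WIN
import Pool.Agent.U667.TQ.SUM
import Pool.Agent.U608.TQ.VAL
import Pool.Agent.U688.TQ.FILT
import Pool.Agent.U97.TQ.THR

set_option autoImplicit false

/-!
# Totient-sum primes `q` with `p_q - q ± 1` twin primes, in Cramer's model of the primes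

The primes are replaced by a random set (`n` is chosen with probability asymptotic to `1 / log n`, independently),
and `p_j` by its `j`-th element.  Almost surely, for all large `n` there is `k`, `1 ≤ k < n - 2`, such that the three
numbers `q = φ(k) + φ(n - k) / 2 + 1`, `p_q - q - 1` and `p_q - q + 1` are chosen, and for every `a` at least
`(log n)^a` different values `q` occur.  The proof gives, for arbitrary sets `D_n ⊆ [1, n + 1]` in place of the set of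
the values `q`, a proportion at least `(log n)^(-31)` of the elements `r` of `D_n` with `r`, `p_r - r - 1` and
`p_r - r + 1` chosen.  (Team project TQ: packages by helpers 894, 810, 858, 375, 94, 667 and others named in the
files; statements, assembly and existence of the model by helper310.)
-/

open MeasureTheory ProbabilityTheory Filter
open scoped Topology

namespace Pool.Agent.Results.MP_61a569_nt.CramerModel

/-- An independent (Cramer) model of the primes: the events `S n` (`n` is chosen) are independent and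
`P(S n) log n → 1`. -/
structure Cramer {Ω : Type} [mΩ : MeasurableSpace Ω] (μ : Measure Ω) (S : ℕ → Set Ω) : Prop where
  meas : ∀ n, MeasurableSet (S n)
  ind : iIndepSet S μ
  dens : Tendsto (fun n : ℕ => μ.real (S n) * Real.log n) atTop (𝓝 1)

/-- the set of the chosen positive integers -/
def chosen {Ω : Type} (S : ℕ → Set Ω) (ω : Ω) : Set ℕ := {m | 1 ≤ m ∧ ω ∈ S m}

/-- the `j`-th chosen positive integer, `j ≥ 1` -/
noncomputable def p {Ω : Type} (S : ℕ → Set Ω) (ω : Ω) (j : ℕ) : ℕ := Nat.nth (· ∈ chosen S ω) (j - 1)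

/-- `r`, `p_r - r - 1` and `p_r - r + 1` are chosen -/
def Good {Ω : Type} (S : ℕ → Set Ω) (ω : Ω) (r : ℕ) : Prop :=
  ω ∈ S r ∧ ω ∈ S (p S ω r - r - 1) ∧ ω ∈ S (p S ω r - r + 1)

/-- `q(n,k) = φ(k) + φ(n - k) / 2 + 1` -/
def q (n k : ℕ) : ℕ := Nat.totient k + Nat.totient (n - k) / 2 + 1

/-- the values `q(n,k)`, `1 ≤ k < n - 2` -/
def values (n : ℕ) : Set ℕ := {r | ∃ k, 1 ≤ k ∧ k < n - 2 ∧ q n k = r}

/-- **Q1 in Cramer's model.** -/
theorem result :
    (∀ a : ℕ, ∀ᶠ n : ℕ in atTop, Real.log n ^ a ≤ ((values n).ncard : ℝ)) ∧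
    (∃ (Ω : Type) (mΩ : MeasurableSpace Ω) (μ : Measure Ω) (_ : IsProbabilityMeasure μ) (S : ℕ → Set Ω), Cramer μ S) ∧
    ∀ {Ω : Type} [mΩ : MeasurableSpace Ω] (μ : Measure Ω) [IsProbabilityMeasure μ] (S : ℕ → Set Ω), Cramer μ S →
      (∀ D : ℕ → Set ℕ, (∀ n, D n ⊆ Set.Icc 1 (n + 1)) → ∀ᵐ ω ∂μ, ∀ᶠ n : ℕ in atTop,
        ((D n).ncard : ℝ) ≤ Real.log n ^ 31 * (1 + (({r ∈ D n | Good S ω r}).ncard : ℝ))) ∧
      ∀ᵐ ω ∂μ, (chosen S ω).Infinite ∧
        (∀ a : ℕ, ∀ᶠ n : ℕ in atTop, Real.log n ^ a ≤ (({r ∈ values n | Good S ω r}).ncard : ℝ)) ∧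
        ∀ᶠ n : ℕ in atTop, ∃ k, 1 ≤ k ∧ k < n - 2 ∧
          ω ∈ S (q n k) ∧ ω ∈ S (p S ω (q n k) - q n k - 1) ∧ ω ∈ S (p S ω (q n k) - q n k + 1) := by
  have hm := Pool.Agent.U310.TQ.Pre.main Pool.Agent.U894.TQ.t_SMOOTH Pool.Agent.U608.TQ.VAL.t_VAL Pool.Agent.U810.TQ.PIG.t_PIG
    Pool.Agent.U688.TQ.t_FILT Pool.Agent.U375.TQ.t_CNT Pool.Agent.U94.TQ.t_WIN Pool.Agent.U97.TQ.t_THR
    Pool.Agent.U858.TQ.t_PROD Pool.Agent.U667.TQ.t_SUM
  refine ⟨hm.1, ?_, ?_⟩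
  · obtain ⟨Ω, mΩ, μ, hμ, S, hS⟩ := Pool.Agent.U310.TQ.Exi.exists_model
    exact ⟨Ω, mΩ, μ, hμ, S, ⟨hS.meas, hS.ind, hS.dens⟩⟩
  · intro Ω mΩ μ hμ S h
    exact hm.2 μ S ⟨h.meas, h.ind, h.dens⟩

end Pool.Agent.Results.MP_61a569_nt.CramerModel
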