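import Pool.Agent.U710.XP.H
import Pool.Agent.U710.XP.S
import Pool.Agent.U710.XP.P
import Pool.Agent.U710.XP.Q
import Pool.Agent.N625.PT.X20

/-!
# The numbers `p_q - q - 1 + N₀`, `p_q - q + 1 + N₁` for ARBITRARY sets of `q`, shifts near the values of a function which
grows faster than any power

The question asks for `k` such that `q = φ(k) + φ(n - k) / 2 + 1`, `p_q - q - 1` and `p_q - q + 1` are prime (`p_q` is the
`q`-th prime). Here `q` runs over ANY finite set `P`, for example the set of the prime values `φ(k) + φ(n - k) / 2 + 1`,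
`1 ≤ k < n - 2`, for a given `n`, and the shifts are `N_j = M h_j u_j`, where `M` is the product of the primes `≤ z` and `u_j` is
near a value `⌊exp (α (log m) ^ γ + β)⌋`, `1 < γ < 3 / 2`; so there are only `X ^ o(1)` shifts up to `X`.

From Mathlib: `primorial z`: the product of the primes `≤ z`; `Nat.nth Nat.Prime k`: the `k + 1`-st prime;
`Fintype.piFinset S`: the vectors `v` with `v j ∈ S j`.

Method (`Pool.Agent.U710.LE`, new): exponential sums over the values with Vinogradov's mean value theorem for a degree which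
tends to infinity; passage to primes by `Pool.Agent.U710.XP` (from `Pool.Agent.U847.X*`, helper847, and the starting files
`Pool.Agent.N625.PT.X*`).
-/

set_option autoImplicit false

namespace Pool.Agent.Results.MP_61a569_nt.SubexponentialShifts

open Finset Filter

/-- The sequence: `S α β γ m = ⌊exp (α (log m) ^ γ + β)⌋`. -/
noncomputable def S (α β γ : ℝ) (m : ℕ) : ℕ := ⌊Real.exp (α * Real.log m ^ γ + β)⌋₊

/-- the product of `1 - 1/q` over the primes `q ≤ y` -/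
noncomputable def V (y : ℕ) : ℝ := ∏ q ∈ (Icc 1 y).filter Nat.Prime, (1 - 1 / (q : ℝ))

/-- `p_q - q`, where `p_q` is the `q`-th prime -/
noncomputable def v (q : ℕ) : ℕ := Nat.nth Nat.Prime (q - 1) - q

/-- the `q ∈ P` for which `p_q - q - 1` is prime to `D 0` and `p_q - q + 1` is prime to `D 1` -/
noncomputable def Adm (P : Finset ℕ) (D : Fin 2 → ℕ) : Finset ℕ :=
  P.filter (fun q => (v q - 1).Coprime (D 0) ∧ (v q + 1).Coprime (D 1))

/-- the `q ∈ P` for which `p_q - q - 1 + N 0` and `p_q - q + 1 + N 1` are prime -/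
noncomputable def Good (P : Finset ℕ) (N : Fin 2 → ℤ) : Finset ℕ :=
  P.filter (fun q => ((v q : ℤ) - 1 + N 0).toNat.Prime ∧ ((v q : ℤ) + 1 + N 1).toNat.Prime)

theorem nth_step (k : ℕ) (hk : 1 ≤ k) : Nat.nth Nat.Prime k + 2 ≤ Nat.nth Nat.Prime (k + 1) := by
  have hinf := Nat.infinite_setOfPred_prime
  have h1 : Nat.nth Nat.Prime k < Nat.nth Nat.Prime (k + 1) := Nat.nth_strictMono hinf (Nat.lt_succ_self k)
  have p1 : (Nat.nth Nat.Prime k).Prime := Nat.prime_nth_prime k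
  have p2 : (Nat.nth Nat.Prime (k + 1)).Prime := Nat.prime_nth_prime (k + 1)
  have h0 : Nat.nth Nat.Prime 0 < Nat.nth Nat.Prime k := Nat.nth_strictMono hinf (by omega)
  have h2 : 2 ≤ Nat.nth Nat.Prime 0 := (Nat.prime_nth_prime 0).two_le
  have o1 : Nat.nth Nat.Prime k % 2 = 1 := by
    rcases Nat.Prime.eq_two_or_odd p1 with h | h
    · omega
    · exact h
  have o2 : Nat.nth Nat.Prime (k + 1) % 2 = 1 := by
    rcases Nat.Prime.eq_two_or_odd p2 with h | h
    · omega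
    · exact h
  omega

theorem nth_lower (k : ℕ) : 2 * (k + 1) + 1 ≤ Nat.nth Nat.Prime (k + 1) := by
  induction k with
  | zero =>
      have hinf := Nat.infinite_setOfPred_prime
      have h0 : Nat.nth Nat.Prime 0 < Nat.nth Nat.Prime 1 := Nat.nth_strictMono hinf (by omega)
      have h2 : 2 ≤ Nat.nth Nat.Prime 0 := (Nat.prime_nth_prime 0).two_le
      simp only [zero_add]
      omega
  | succ n ih =>
      have := nth_step (n + 1) (by omega)
      omega

theorem v_lower (q : ℕ) (hq : 2 ≤ q) : q - 1 ≤ v q := by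
  obtain ⟨k, rfl⟩ : ∃ k, q = k + 2 := ⟨q - 2, by omega⟩
  unfold v
  have h := nth_lower k
  have e : k + 2 - 1 = k + 1 := by omega
  rw [e]
  omega

theorem v_lt (q : ℕ) (hq : 2 ≤ q) : v q < v (q + 1) := by
  obtain ⟨k, rfl⟩ : ∃ k, q = k + 2 := ⟨q - 2, by omega⟩
  unfold v
  have h := nth_lower k
  have h2 := nth_step (k + 1) (by omega)
  have e : k + 2 - 1 = k + 1 := by omega
  have e2 : k + 2 + 1 - 1 = k + 1 + 1 := by omega
  rw [e, e2]
  omega

theorem v_strict (a b : ℕ) (ha : 2 ≤ a) (hab : a < b) : v a < v b := by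
  induction b with
  | zero => omega
  | succ n ih =>
      rcases Nat.lt_or_ge a n with h | h
      · exact (ih h).trans (v_lt n (by omega))
      · have : a = n := by omega
        subst this
        exact v_lt a ha

theorem v_inj (a b : ℕ) (ha : 2 ≤ a) (hb : 2 ≤ b) (h : v a = v b) : a = b := by
  rcases lt_trichotomy a b with h1 | h1 | h1
  · have := v_strict a b ha h1
    omega
  · exact h1
  · have := v_strict b a hb h1
    omega

lemma cop_of {a D : ℕ} {N : ℤ} (ha : 1 ≤ a) (hD : 1 ≤ D) (hN : 0 < N) (hDN : (D : ℤ) ∣ N) (hp : (N + (a : ℤ)).toNat.Prime) :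
    a.Coprime D := by
  by_contra hcop
  obtain ⟨q, hqp, hqa, hqb⟩ := Nat.Prime.not_coprime_iff_dvd.1 hcop
  have f1 : (q : ℤ) ∣ N + (a : ℤ) := dvd_add ((by exact_mod_cast hqb : (q : ℤ) ∣ (D : ℤ)).trans hDN) (by exact_mod_cast hqa)
  have f0 : (1 : ℤ) ≤ a := by exact_mod_cast ha
  have f2 : (0 : ℤ) ≤ N + (a : ℤ) := by linarith
  have f3 : q ∣ (N + (a : ℤ)).toNat := by
    rw [← Int.natCast_dvd_natCast, Int.toNat_of_nonneg f2]
    exact f1
  have f4 := (Nat.prime_dvd_prime_iff_eq hqp hp).1 f3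
  have f5 : (q : ℤ) ≤ D := by exact_mod_cast Nat.le_of_dvd (by omega) hqb
  have f6 : (D : ℤ) ≤ N := Int.le_of_dvd hN hDN
  have f7 : (q : ℤ) = N + (a : ℤ) := by rw [f4, Int.toNat_of_nonneg f2]
  linarith

/-- good numbers are admissible -/
lemma good_sub (P : Finset ℕ) (hP : ∀ q ∈ P, 3 ≤ q) (D : Fin 2 → ℕ) (hD : ∀ j, 1 ≤ D j) (N : Fin 2 → ℤ) (hN : ∀ j, 0 < N j)
    (hDN : ∀ j, (D j : ℤ) ∣ N j) : Good P N ⊆ Adm P D := by
  intro q hq
  unfold Good at hq
  unfold Adm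
  rw [mem_filter] at hq ⊢
  obtain ⟨h1, h2, h3⟩ := hq
  have h4 := v_lower q (by have := hP q h1; omega)
  have h5 := hP q h1
  refine ⟨h1, ?_, ?_⟩
  · apply cop_of (by omega) (hD 0) (hN 0) (hDN 0)
    convert h2 using 2
    push_cast [Nat.cast_sub (by omega : 1 ≤ v q)]
    ring
  · apply cop_of (by omega) (hD 1) (hN 1) (hDN 1)
    convert h3 using 2
    push_cast
    ring

lemma V_low' (n : ℕ) : 1 / ((n : ℝ) + 1) ≤ V (n + 1) := by
  induction n with
  | zero =>
    have h : (Icc 1 (0 + 1)).filter Nat.Prime = ∅ := by decide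
    unfold V
    rw [h]
    norm_num
  | succ n ih =>
    have h0 : (0 : ℝ) ≤ n := Nat.cast_nonneg n
    unfold V at ih ⊢
    have hI : Icc 1 (n + 1 + 1) = insert (n + 1 + 1) (Icc 1 (n + 1)) := by
      ext a
      rw [mem_insert, mem_Icc, mem_Icc]
      omega
    rw [hI, filter_insert]
    split_ifs with hp
    · rw [prod_insert (by rw [mem_filter, mem_Icc]; omega)]
      have h1 : (1 : ℝ) - 1 / ((n + 1 + 1 : ℕ) : ℝ) = (n + 1) / (n + 1 + 1) := by
        push_cast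
        field_simp
        ring
      rw [h1]
      calc 1 / (((n + 1 : ℕ) : ℝ) + 1) = ((n : ℝ) + 1) / (n + 1 + 1) * (1 / (n + 1)) := by
            push_cast
            field_simp
        _ ≤ _ := mul_le_mul_of_nonneg_left ih (by positivity)
    · refine le_trans ?_ ih
      apply one_div_le_one_div_of_le (by positivity)
      push_cast
      linarith

lemma V_low (z : ℕ) : 1 / ((z : ℝ) + 1) ≤ V z := by
  rcases Nat.eq_zero_or_pos z with h | h
  · rw [h]
    unfold V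
    norm_num
  · obtain ⟨n, rfl⟩ : ∃ n, z = n + 1 := ⟨z - 1, by omega⟩
    refine le_trans ?_ (V_low' n)
    apply one_div_le_one_div_of_le (by positivity)
    push_cast
    linarith

open Classical in
/-- the law for classes of distributions -/
theorem main (b q₀ : ℕ) (hb : 2 ≤ b) (Cl : Fin 2 → ℕ → (ℕ → ℝ) → Prop) (hC : ∀ j, Pool.Agent.U710.XP.SCls b q₀ (Cl j)) :
    ∀ κ : Fin 2 → ℤ, (∀ j, κ j ≠ 0) →
    ∀ (B J C A K₁ : ℕ) (θ : ℝ), 0 < θ → ∀ ε : ℝ, 0 < ε → ε ≤ 1 → ∃ d₀ : ℕ, ∀ d : ℕ, d₀ ≤ d →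
    ∀ μ : Fin 2 → ℕ → ℝ, (∀ j, Cl j d (μ j)) →
    ∀ y : ℕ, θ * Real.log d ≤ y → y ≤ K₁ * Real.log d →
    ∀ c : Fin 2 → ℤ, (∀ j, |c j| ≤ B * (b : ℤ) ^ d) → ∀ h : Fin 2 → ℕ, (∀ j, 1 ≤ h j ∧ h j ≤ d ^ J) →
    ∀ x : ℕ, b ^ d ≤ x * d ^ C → x ≤ b ^ d * d ^ C →
    ∀ P : Finset ℕ, (∀ q ∈ P, 3 ≤ q ∧ v q < x) → (x : ℝ) ≤ (Adm P (fun j => primorial y * h j)).card * (d : ℝ) ^ A →
      ∑ u ∈ Fintype.piFinset (fun _ : Fin 2 => range (b ^ d)), (if (∀ j, 0 < Pool.Agent.N625.PT.Nm y (h j) (c j) (κ j) (u j)) →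
        |((Good P (fun j => Pool.Agent.N625.PT.Nm y (h j) (c j) (κ j) (u j))).card : ℝ) -
            (Adm P (fun j => primorial y * h j)).card / (V y * (d * Real.log b)) ^ 2| ≤
          ε * ((Adm P (fun j => primorial y * h j)).card / (V y * (d * Real.log b)) ^ 2) then 0 else ∏ j, μ j (u j)) ≤ ε := by
  intro κ hκ B J C A K₁ θ hθ ε hε hε1
  obtain ⟨k₀, h0⟩ := Pool.Agent.U710.XP.tuple_law b q₀ hb 2 Cl hC κ hκ B J A C K₁ θ hθ ε hε hε1
  refine ⟨k₀, fun d hd μ hμ y hy1 hy2 c hc h hh x hx1 hx2 P hP hbig => ?_⟩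
  obtain ⟨I, hI⟩ : ∃ I, I = Adm P (fun j => primorial y * h j) := ⟨_, rfl⟩
  have hIm : ∀ q ∈ I, q ∈ P ∧ (v q - 1).Coprime (primorial y * h 0) ∧ (v q + 1).Coprime (primorial y * h 1) := by
    intro q hq
    rw [hI] at hq
    unfold Adm at hq
    rw [mem_filter] at hq
    exact hq
  obtain ⟨f, hf⟩ : ∃ f : Fin 2 → ℕ → ℕ, f = ![fun q => v q - 1, fun q => v q + 1] := ⟨_, rfl⟩
  have hf0 : ∀ p, f 0 p = v p - 1 := fun p => by rw [hf]; rfl
  have hf1 : ∀ p, f 1 p = v p + 1 := fun p => by rw [hf]; rfl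
  have h5 := h0 d hd μ hμ y hy1 hy2 c hc h hh x hx1 hx2 I f (by
      intro j p hp r hr hpr
      have g1 := hP p (hIm p (by exact_mod_cast hp)).1
      have g2 := hP r (hIm r (by exact_mod_cast hr)).1
      have g3 := v_lower p (by omega)
      have g4 := v_lower r (by omega)
      apply v_inj p r (by omega) (by omega)
      fin_cases j
      · have : f 0 p = f 0 r := hpr
        rw [hf0, hf0] at this
        omega
      · have : f 1 p = f 1 r := hpr
        rw [hf1, hf1] at this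
        omega) (by
      intro j p hp
      obtain ⟨q1, q2, q3⟩ := hIm p hp
      have g1 := hP p q1
      have g3 := v_lower p (by omega)
      fin_cases j
      · show 1 ≤ f 0 p ∧ f 0 p ≤ x ∧ (f 0 p).Coprime (primorial y * h 0)
        rw [hf0]
        exact ⟨by omega, by omega, q2⟩
      · show 1 ≤ f 1 p ∧ f 1 p ≤ x ∧ (f 1 p).Coprime (primorial y * h 1)
        rw [hf1]
        exact ⟨by omega, by omega, q3⟩) (by rw [hI]; exact hbig) (fun _ => 1) (fun _ => Or.inl rfl)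
  refine le_trans (sum_le_sum fun u _ => ?_) h5
  have hm0 : 0 ≤ ∏ j, μ j (u j) := prod_nonneg fun j _ => (hC j).nonneg _ _ (hμ j) _
  rw [← hI]
  obtain ⟨N, hN⟩ : ∃ N : Fin 2 → ℤ, N = fun j => Pool.Agent.N625.PT.Nm y (h j) (c j) (κ j) (u j) := ⟨_, rfl⟩
  have hNj : ∀ j, Pool.Agent.N625.PT.Nm y (h j) (c j) (κ j) (u j) = N j := fun j => by rw [hN]
  simp only [hNj]
  by_cases hgood : (∀ j, 0 < N j) →
        |((Good P N).card : ℝ) - I.card / (V y * (d * Real.log b)) ^ 2| ≤ ε * (I.card / (V y * (d * Real.log b)) ^ 2)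
  · rw [if_pos hgood]
    split_ifs
    · exact le_rfl
    · exact hm0
  · rw [if_neg hgood, if_neg]
    intro hall
    apply hgood
    intro hpos
    have h6 := hall (by
      intro j i hi
      have : (0 : ℤ) ≤ (f j i : ℤ) := Int.natCast_nonneg _
      have := hpos j
      linarith) 2 le_rfl
    have hDN : ∀ j, ((primorial y * h j : ℕ) : ℤ) ∣ N j := fun j => by
      rw [← hNj]
      unfold Pool.Agent.N625.PT.Nm
      exact dvd_mul_right _ _
    have hset : Good P N = I.filter (fun i => ∀ j : Fin 2, (j : ℕ) < 2 → (N j + 1 * (f j i : ℕ)).toNat.Prime) := by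
      ext p
      rw [mem_filter]
      constructor
      · intro hp
        have hpI : p ∈ I := by
          rw [hI]
          exact good_sub P (fun q hq => (hP q hq).1) _ (fun j => Nat.mul_pos (primorial_pos y) (hh j).1) N hpos hDN hp
        refine ⟨hpI, fun j _ => ?_⟩
        have g1 := hP p (hIm p hpI).1
        have g3 := v_lower p (by omega)
        unfold Good at hp
        rw [mem_filter] at hp
        rw [one_mul]
        fin_cases j
        · show (N 0 + ((f 0 p : ℕ) : ℤ)).toNat.Prime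
          rw [hf0, Nat.cast_sub (by omega)]
          convert hp.2.1 using 2
          push_cast
          ring
        · show (N 1 + ((f 1 p : ℕ) : ℤ)).toNat.Prime
          rw [hf1]
          convert hp.2.2 using 2
          push_cast
          ring
      · rintro ⟨hpI, hp⟩
        have g0 := (hIm p hpI).1
        have g1 := hP p g0
        have g3 := v_lower p (by omega)
        have r0 := hp 0 (by norm_num)
        have r1 := hp 1 (by norm_num)
        rw [one_mul, hf0, Nat.cast_sub (by omega)] at r0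
        rw [one_mul, hf1] at r1
        unfold Good
        rw [mem_filter]
        refine ⟨g0, ?_, ?_⟩
        · convert r0 using 2
          push_cast
          ring
        · convert r1 using 2
          push_cast
          ring
    rw [hset]
    exact h6

/-- the multiples `M h_j u_j` -/
def Nu (z : ℕ) (h : Fin 2 → ℕ) (u : Fin 2 → ℤ) (j : Fin 2) : ℤ := ((primorial z * h j : ℕ) : ℤ) * u j

set_option maxHeartbeats 1000000 in
open Classical in
/-- Let `S(m) = ⌊exp (α (log m) ^ γ + β)⌋`, `α > 0`, `1 < γ < 3/2` (it grows faster than any power of `m`, and has only `N ^ o(1)`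
members up to `N`). Let `κ j ≠ 0`, `A`, `B`, `J`, `C`, `D`, `K₁`, `R` be integers, `θ > 0`, `0 < ε ≤ 1`, let `y` be large and
`L = log S(y)`. Let `y / (log y) ^ A ≤ w j ≤ y / log y`, let `z` be between `θ log L` and `K₁ log L`, `M` the product of the
primes `≤ z`, `|c j| ≤ B S(y)`, `1 ≤ h j ≤ L ^ J`, `S(y) ≤ x L ^ C`, `x ≤ S(y) L ^ C`, and let `P` be ANY set of integers `q ≥ 3`
with `p_q - q < x`. Let `E = #A / (V(z) L) ^ 2`, where `A` is the set of the `q ∈ P` such that `p_q - q - 1` is prime to `M h_0`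
and `p_q - q + 1` is prime to `M h_1`. All but at most `ε w_0 w_1` of the pairs `(m_0, m_1)` of integers `m_j` in `(y - w_j, y]`
are such that for ALL pairs `(u_0, u_1)` of integers with `|u_j - (c_j + κ_j S(m_j))| ≤ R`: if both `N_j = M h_j u_j > 0`, then
the number of ALL `q ∈ P` for which `p_q - q - 1 + N_0` and `p_q - q + 1 + N_1` are prime differs from `E` by at most
`ε E + x / L ^ D`. -/
theorem result (α β γ : ℝ) (hα : 0 < α) (hγ1 : 1 < γ) (hγ2 : γ < 3 / 2) (κ : Fin 2 → ℤ) (hκ : ∀ j, κ j ≠ 0)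
    (A B J C D K₁ R : ℕ) (θ : ℝ) (hθ : 0 < θ) (ε : ℝ) (hε : 0 < ε) (hε1 : ε ≤ 1) : ∀ᶠ y : ℕ in atTop, ∀ w : Fin 2 → ℕ,
    (∀ j, (y : ℝ) / Real.log y ^ A ≤ w j ∧ (w j : ℝ) ≤ y / Real.log y) →
    ∀ z : ℕ, θ * Real.log (Real.log (S α β γ y)) ≤ z → z ≤ K₁ * Real.log (Real.log (S α β γ y)) →
    ∀ c : Fin 2 → ℤ, (∀ j, |c j| ≤ B * (S α β γ y : ℕ)) →
    ∀ h : Fin 2 → ℕ, (∀ j, 1 ≤ h j ∧ (h j : ℝ) ≤ Real.log (S α β γ y) ^ J) →
    ∀ x : ℕ, (S α β γ y : ℝ) ≤ x * Real.log (S α β γ y) ^ C → (x : ℝ) ≤ S α β γ y * Real.log (S α β γ y) ^ C →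
    ∀ P : Finset ℕ, (∀ q ∈ P, 3 ≤ q ∧ v q < x) →
    (((Fintype.piFinset fun j => Ioc (y - w j) y).filter (fun m : Fin 2 → ℕ =>
      ¬ ∀ u : Fin 2 → ℤ, (∀ j, |u j - (c j + κ j * (S α β γ (m j) : ℕ))| ≤ R) → (∀ j, 0 < Nu z h u j) →
        |((Good P (Nu z h u)).card : ℝ) - (Adm P (fun j => primorial z * h j)).card / (V z * Real.log (S α β γ y)) ^ 2| ≤
          ε * ((Adm P (fun j => primorial z * h j)).card / (V z * Real.log (S α β γ y)) ^ 2) +
            x / Real.log (S α β γ y) ^ D)).card : ℝ) ≤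
      ε * ∏ j, (w j : ℝ) := by
  obtain ⟨ζ, σ, hζ, hζ1, hσ, hdist⟩ := Pool.Agent.U710.XP.ef_dist α β γ hα hγ1 hγ2 A
  obtain ⟨ε', hε'⟩ : ∃ ε' : ℝ, ε' = ε / (2 * (2 * R + 1) ^ 2) := ⟨_, rfl⟩
  have hR1 : (1 : ℝ) ≤ (2 * R + 1) ^ 2 := by
    have : (0 : ℝ) ≤ R := Nat.cast_nonneg R
    exact one_le_pow₀ (by linarith)
  have he0 : 0 < ε' := by rw [hε']; positivity
  have he2 : ε' ≤ ε / 2 := by
    rw [hε', ← div_div]
    exact div_le_self (by positivity) hR1
  obtain ⟨k₀, hk₀⟩ := main 2 0 le_rfl (fun _ => Pool.Agent.U710.XP.LD ζ σ (A + 4))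
    (fun _ => Pool.Agent.U710.XP.LD_scls ζ hζ hζ1 (A + 4) σ hσ) κ hκ
    (B + 1) J (C + 1) D K₁ (θ / 2) (by positivity) ε' he0 (by linarith)
  obtain ⟨N₀, hN₀⟩ := Pool.Agent.U710.XP.scales2 J C 2 ε hε
  have hlo : ∀ᶠ L : ℝ in atTop, (K₁ : ℝ) * Real.log L + 1 ≤ L := by
    have h1 := Real.isLittleO_log_id_atTop.bound (show (0 : ℝ) < 1 / (2 * (K₁ + 1)) by positivity)
    filter_upwards [h1, eventually_ge_atTop (2 : ℝ)] with L h1 h2
    rw [Real.norm_of_nonneg (Real.log_nonneg (by linarith)), id_eq, Real.norm_of_nonneg (by linarith)] at h1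
    have h3 : (K₁ : ℝ) * Real.log L ≤ L / 2 := by
      have h4 : (0 : ℝ) ≤ K₁ := Nat.cast_nonneg _
      have h5 : (K₁ : ℝ) / (2 * (K₁ + 1)) ≤ 1 / 2 := by
        rw [div_le_div_iff₀ (by positivity) (by norm_num)]
        linarith
      calc (K₁ : ℝ) * Real.log L ≤ K₁ * (1 / (2 * (K₁ + 1)) * L) := mul_le_mul_of_nonneg_left h1 h4
        _ = (K₁ : ℝ) / (2 * (K₁ + 1)) * L := by ring
        _ ≤ 1 / 2 * L := mul_le_mul_of_nonneg_right h5 (by linarith)
        _ = _ := by ring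
    linarith
  obtain ⟨n₁, hn₁⟩ := eventually_atTop.1
    ((Real.tendsto_log_atTop.comp (tendsto_natCast_atTop_atTop (R := ℝ))).eventually hlo)
  obtain ⟨y₀, hy₀⟩ := hdist (k₀ + N₀ + R + n₁ + 20)
  filter_upwards [eventually_ge_atTop y₀] with y hy w hw z hz1 hz2 c hc h hh x hx1 hx2 P hP
  have hall := fun j => hy₀ y (w j) hy (hw j).1 (hw j).2
  obtain ⟨-, -, c3, c4, c5, -, -⟩ := hall 0
  obtain ⟨N, hN⟩ : ∃ N, N = S α β γ y := ⟨_, rfl⟩
  have hN' : ⌊Pool.Agent.U710.LE.ef α β γ y⌋₊ = N := by rw [hN]; rfl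
  rw [hN'] at c3 c4 c5 hall
  rw [← hN] at hz1 hz2 hc hh hx1 hx2 ⊢
  have hdgN : Pool.Agent.U710.LE.dg N ≤ N := by
    unfold Pool.Agent.U710.LE.dg
    have := Nat.log_lt_self 2 (show N ≠ 0 by omega)
    omega
  have hNN : N₀ ≤ N := by omega
  have hLN := hn₁ N (by omega)
  simp only [Function.comp_apply] at hLN
  obtain ⟨s1, s2, s3, s4, s5, s6, s7, s8, s9⟩ := hN₀ N hNN
  obtain ⟨k, hk⟩ : ∃ k, k = Pool.Agent.U710.LE.dg N := ⟨_, rfl⟩
  rw [← hk] at c4 c5 hall s3 s4 s5 s6 s7 s8 s9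
  have hNk : N ≤ 2 ^ k := by rw [hk]; exact (Pool.Agent.U710.LE.lt_dg N).le
  have hz1' : θ / 2 * Real.log k ≤ z := by
    refine le_trans ?_ hz1
    have h1 : θ / 2 * Real.log k ≤ θ / 2 * (2 * Real.log (Real.log N)) := mul_le_mul_of_nonneg_left s4 (by positivity)
    linarith
  have hz2' : z ≤ K₁ * Real.log k := hz2.trans (mul_le_mul_of_nonneg_left s5 (Nat.cast_nonneg _))
  have hV : 0 < V z := Pool.Agent.H373R2.T7.Vz_pos z
  obtain ⟨L, hL⟩ : ∃ L, L = Real.log N := ⟨_, rfl⟩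
  rw [← hL] at hx1 hx2 hh hz2 hLN s2 s3 s4 s5 s6 s7 s8 s9 ⊢
  have hL0 : 0 < L := by linarith
  have hVL : 1 ≤ V z * L := by
    have h1 : (z : ℝ) + 1 ≤ L := by linarith
    have h2 := V_low z
    have h3 : (0 : ℝ) < (z : ℝ) + 1 := by positivity
    calc (1 : ℝ) = 1 / ((z : ℝ) + 1) * ((z : ℝ) + 1) := by field_simp
      _ ≤ V z * L := mul_le_mul h2 h1 h3.le hV.le
  have hhk : ∀ j, 1 ≤ h j ∧ h j ≤ k ^ J := fun j => ⟨(hh j).1, s7 (h j) (hh j).2⟩
  have hm1 := s8 x hx1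
  have hm2 := s9 x hx2
  have hw0 : (0 : ℝ) < ∏ j, (w j : ℝ) := prod_pos fun j _ => by exact_mod_cast (hall j).1
  obtain ⟨a, ha⟩ : ∃ a : ℕ, a = (Adm P (fun j => primorial z * h j)).card := ⟨_, rfl⟩
  have hDNu : ∀ u : Fin 2 → ℤ, ∀ j, ((primorial z * h j : ℕ) : ℤ) ∣ Nu z h u j := fun u j => by
    unfold Nu
    exact dvd_mul_right _ _
  rcases le_or_gt (x : ℝ) (a * (k : ℝ) ^ D) with hbig | hsmall
  swap
  · have hempty : (Fintype.piFinset fun j => Ioc (y - w j) y).filter (fun m : Fin 2 → ℕ =>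
      ¬ ∀ u : Fin 2 → ℤ, (∀ j, |u j - (c j + κ j * (S α β γ (m j) : ℕ))| ≤ R) → (∀ j, 0 < Nu z h u j) →
        |((Good P (Nu z h u)).card : ℝ) - (Adm P (fun j => primorial z * h j)).card / (V z * L) ^ 2| ≤
          ε * ((Adm P (fun j => primorial z * h j)).card / (V z * L) ^ 2) + x / L ^ D) = ∅ := by
      rw [filter_eq_empty_iff]
      intro m _
      rw [not_not]
      intro u _ hu2
      rw [← ha]
      have g1 : (Good P (Nu z h u)).card ≤ a := by
        rw [ha]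
        exact card_le_card (good_sub P (fun q hq => (hP q hq).1) _ (fun j => Nat.mul_pos (primorial_pos z) (hh j).1) _ hu2
          (hDNu u))
      have g2 : (a : ℝ) ≤ x / L ^ D := by
        rw [le_div_iff₀ (by positivity)]
        have g3 : (a : ℝ) * L ^ D ≤ a * (k : ℝ) ^ D :=
          mul_le_mul_of_nonneg_left (pow_le_pow_left₀ hL0.le s3 D) (Nat.cast_nonneg _)
        linarith
      have g4 : (0 : ℝ) ≤ a := Nat.cast_nonneg a
      have g5 : (a : ℝ) / (V z * L) ^ 2 ≤ a := div_le_self g4 (one_le_pow₀ hVL)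
      have g6 : (0 : ℝ) ≤ (a : ℝ) / (V z * L) ^ 2 := by positivity
      have g7 : ((Good P (Nu z h u)).card : ℝ) ≤ a := by exact_mod_cast g1
      have g8 : (0 : ℝ) ≤ ((Good P (Nu z h u)).card : ℝ) := Nat.cast_nonneg _
      have g9 : 0 ≤ ε * ((a : ℝ) / (V z * L) ^ 2) := by positivity
      rw [abs_le]
      constructor <;> linarith
    rw [hempty, card_empty, Nat.cast_zero]
    positivity
  have hcall : ∀ i : Fin 2 → ℤ, (∀ j, |i j| ≤ R) → ∀ j, |c j + i j| ≤ ((B + 1 : ℕ) : ℤ) * ((2 : ℕ) : ℤ) ^ k := by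
    intro i hi j
    have h2 : (N : ℤ) ≤ (2 : ℤ) ^ k := by exact_mod_cast hNk
    have h3 : (B : ℤ) * N ≤ B * (2 : ℤ) ^ k := mul_le_mul_of_nonneg_left h2 (Nat.cast_nonneg _)
    have h4 := hc j
    have h5 := hi j
    have hRk : (R : ℤ) ≤ (2 : ℤ) ^ k := by
      have h1 : R ≤ 2 ^ k := (by omega : R ≤ k).trans (Nat.lt_pow_self (by norm_num)).le
      exact_mod_cast h1
    push_cast
    calc |c j + i j| ≤ |c j| + |i j| := abs_add_le _ _
      _ ≤ B * (2 : ℤ) ^ k + (2 : ℤ) ^ k := by linarith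
      _ = _ := by ring
  have hk₀' := fun (i : Fin 2 → ℤ) (hi : ∀ j, |i j| ≤ R) => hk₀ k (by omega)
    (fun j => Pool.Agent.U710.XP.dist α β γ y (w j)) (fun j => (hall j).2.2.2.2.2.2) z hz1' hz2'
    (fun j => c j + i j) (hcall i hi) h hhk x hm1 hm2 P hP (by rw [← ha]; exact hbig)
  obtain ⟨Bad, hBad⟩ : ∃ Bad : (Fin 2 → ℤ) → (Fin 2 → ℕ) → Prop, ∀ i v, Bad i v ↔
      ¬ ((∀ j, 0 < Pool.Agent.N625.PT.Nm z (h j) (c j + i j) (κ j) (v j)) →
        |((Good P (fun j => Pool.Agent.N625.PT.Nm z (h j) (c j + i j) (κ j) (v j))).card : ℝ) -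
            (Adm P (fun j => primorial z * h j)).card / (V z * (k * Real.log (2 : ℕ))) ^ 2| ≤
          ε' * ((Adm P (fun j => primorial z * h j)).card / (V z * (k * Real.log (2 : ℕ))) ^ 2)) := ⟨_, fun _ _ => Iff.rfl⟩
  obtain ⟨I, hI⟩ : ∃ I : Finset (Fin 2 → ℤ), I = Fintype.piFinset (fun _ => Icc (-(R : ℤ)) R) := ⟨_, rfl⟩
  have hone : ∀ i ∈ I, (((Fintype.piFinset fun j => Ioc (y - w j) y).filter
      (fun m : Fin 2 → ℕ => Bad i (fun j => S α β γ (m j)))).card : ℝ) ≤ ε' * ∏ j, (w j : ℝ) := by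
    intro i hi
    rw [hI, Fintype.mem_piFinset] at hi
    have hi' : ∀ j, |i j| ≤ R := fun j => abs_le.2 (mem_Icc.1 (hi j))
    have h1 := hk₀' i hi'
    refine Pool.Agent.U710.XP.dist_pi (fun _ => α) (fun _ => β) (fun _ => γ) (fun _ => ζ) (fun _ => σ) (fun _ => A + 4) k
      (fun _ => y) w (fun j => (hall j).2.1) (fun j => (hall j).2.2.2.2.2.1) (Bad i) ε' (le_trans (le_of_eq ?_) h1)
    refine sum_congr rfl fun v _ => ?_
    by_cases hq : Bad i v
    · rw [if_pos hq, if_neg]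
      rw [hBad] at hq
      convert hq
    · rw [if_neg hq, if_pos]
      rw [hBad, not_not] at hq
      convert hq
  have hsub : (Fintype.piFinset fun j => Ioc (y - w j) y).filter (fun m : Fin 2 → ℕ =>
      ¬ ∀ u : Fin 2 → ℤ, (∀ j, |u j - (c j + κ j * (S α β γ (m j) : ℕ))| ≤ R) → (∀ j, 0 < Nu z h u j) →
        |((Good P (Nu z h u)).card : ℝ) - (Adm P (fun j => primorial z * h j)).card / (V z * L) ^ 2| ≤
          ε * ((Adm P (fun j => primorial z * h j)).card / (V z * L) ^ 2) + x / L ^ D) ⊆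
      I.biUnion fun i => (Fintype.piFinset fun j => Ioc (y - w j) y).filter
        (fun m : Fin 2 → ℕ => Bad i (fun j => S α β γ (m j))) := by
    intro m hm
    obtain ⟨hm1, hm2⟩ := mem_filter.1 hm
    push Not at hm2
    obtain ⟨u, g3, g4, g5⟩ := hm2
    rw [mem_biUnion]
    refine ⟨fun j => u j - (c j + κ j * (S α β γ (m j) : ℕ)), ?_, mem_filter.2 ⟨hm1, ?_⟩⟩
    · rw [hI, Fintype.mem_piFinset]
      intro j
      exact mem_Icc.2 (abs_le.1 (g3 j))
    rw [hBad]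
    have e1 : ∀ j, Pool.Agent.N625.PT.Nm z (h j) (c j + (u j - (c j + κ j * (S α β γ (m j) : ℕ)))) (κ j) (S α β γ (m j)) =
        Nu z h u j := by
      intro j
      unfold Pool.Agent.N625.PT.Nm Nu
      ring
    simp only [e1]
    intro hcon
    have h5 := hcon g4
    have h6 := s6 (Adm P (fun j => primorial z * h j)).card (V z) (Nat.cast_nonneg _) hV (Good P (fun j => Nu z h u j)).card
    have h7 : (0 : ℝ) ≤ x / L ^ D := by positivity
    refine absurd ((h6 ?_).trans (le_add_of_nonneg_right h7)) (not_le.2 g5)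
    refine le_trans (by exact_mod_cast h5) (mul_le_mul_of_nonneg_right he2 ?_)
    have : (0 : ℝ) ≤ Real.log 2 := Real.log_nonneg (by norm_num)
    positivity
  calc _ ≤ ((I.biUnion fun i => (Fintype.piFinset fun j => Ioc (y - w j) y).filter
        (fun m : Fin 2 → ℕ => Bad i (fun j => S α β γ (m j)))).card : ℝ) := Nat.cast_le.2 (card_le_card hsub)
    _ ≤ ∑ i ∈ I, (((Fintype.piFinset fun j => Ioc (y - w j) y).filter
        (fun m : Fin 2 → ℕ => Bad i (fun j => S α β γ (m j)))).card : ℝ) := by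
        exact_mod_cast card_biUnion_le
    _ ≤ ∑ _i ∈ I, ε' * ∏ j, (w j : ℝ) := sum_le_sum hone
    _ = (2 * R + 1) ^ 2 * ε' * ∏ j, (w j : ℝ) := by
        rw [sum_const, nsmul_eq_mul, hI, Fintype.card_piFinset, prod_const, Int.card_Icc, card_univ, Fintype.card_fin]
        have : ((R : ℤ) + 1 - (-(R : ℤ))).toNat = 2 * R + 1 := by omega
        rw [this]
        push_cast
        ring
    _ = ε / 2 * ∏ j, (w j : ℝ) := by
        rw [hε']
        field_simp
    _ ≤ ε * ∏ j, (w j : ℝ) := mul_le_mul_of_nonneg_right (by linarith) hw0.le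

end Pool.Agent.Results.MP_61a569_nt.SubexponentialShifts
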