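import Pool.Agent.U308.AP.Core

/-!
# The numbers `p_q - q` plus shifts near almost all very smooth numbers: arbitrary families of weights on `q`

The question asks for `k` such that `q = φ(k) + φ(n - k) / 2 + 1` and `p_q - q - 1`, `p_q - q + 1` are prime (`p_q` is
the `q`-th prime). Here two of the three conditions can be kept exactly: the weights `w l` on the integers `q ≥ 2` are
arbitrary, for example the indicator of the set of the primes `q = φ(k) + φ(n - k) / 2 + 1`, `1 ≤ k < n - 2`, for which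
`p_q - q - 1` is prime, for each of `log ^ T N` given numbers `n`. The last condition is replaced by: `p_q - q + t` is prime.
For ALL the shifts `t` near almost all members of very thin families (integers composed of primes from an arbitrary
set of more than `log ^ (1 + δ) N` primes, for example the `y`-smooth numbers with `y ≥ log ^ (1 + δ) N`; there can be
fewer than `N ^ δ` of them) the weighted number of these `q` is determined by the classes of `p_q - q` modulo small primes:
the primality of `p_q - q + t` can be replaced by the condition that it has no prime factor `≤ z`, with `z` a power of `log N`.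

Method (helper308). The weighted law of `Pool.Agent.Results.MP_e87c7d_nt.SmoothShifts` (a weight which counts the
representations `v = m₁ m₂ u`, with a small exponential sum, dominates the uniform measure up to a factor `log N`) and
the replacement of the von Mangoldt function by its sieve model (`Pool.Agent.U308.LP.sm_repZ2`, starting files N469 and
Y885), here for families of weights on the first variable (`Pool.Agent.U308.AP.ap`). The lemmas on the function `p_q - q` are
those of the hand-in `ArbitraryWeights` (helper918) of this problem.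
-/

set_option autoImplicit false

namespace Pool.Agent.Results.MP_61a569_nt.VerySmoothShifts

open Finset

/-- The integers `1 ≤ x ≤ N` all of whose prime factors belong to `P`. -/
def composedOf (P : Finset ℕ) (N : ℕ) : Finset ℕ := (Icc 1 N).filter fun x => x.primeFactors ⊆ P

/-- The `y`-smooth integers `1 ≤ x ≤ N`: all of whose prime factors are at most `y`. -/
def smooth (y N : ℕ) : Finset ℕ := (Icc 1 N).filter fun x => ∀ p ∈ x.primeFactors, p ≤ y

/-- the product of `1 - 1/p` over the primes `p ≤ z` -/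
noncomputable def V (z : ℕ) : ℝ := ∏ p ∈ (Icc 1 z).filter Nat.Prime, (1 - 1 / (p : ℝ))

/-- `p_q - q`, where `p_q` is the `q`-th prime -/
noncomputable def v (q : ℕ) : ℕ := Nat.nth Nat.Prime (q - 1) - q

open Classical in
/-- the sum of `w q log (p_q - q + t)` over the `q ≥ 2` with `p_q - q ≤ y`, `p_q - q ≡ a mod d`, for which `p_q - q + t` is
prime -/
noncomputable def primeSum (w : ℕ → ℝ) (t d a y : ℕ) : ℝ :=
  ∑ q ∈ (Icc 2 (y + 1)).filter (fun q => v q ≤ y ∧ v q ≡ a [MOD d] ∧ (v q + t).Prime), w q * Real.log ((v q + t : ℕ) : ℝ)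

open Classical in
/-- the sum of `w q / V z` over the `q ≥ 2` with `p_q - q ≤ y`, `p_q - q ≡ a mod d`, for which no prime `p ≤ z` divides
`p_q - q + t` -/
noncomputable def modelSum (z : ℕ) (w : ℕ → ℝ) (t d a y : ℕ) : ℝ :=
  ∑ q ∈ (Icc 2 (y + 1)).filter (fun q => v q ≤ y ∧ v q ≡ a [MOD d] ∧ ∀ p : ℕ, p.Prime → p ≤ z → ¬ p ∣ v q + t), w q / V z

/-- the sum over primes and the model agree up to `N / log ^ D N`, for all the weights `w l`, all `y ≤ B N` and
all the classes to all the moduli `d ≤ log ^ Q N` -/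
def Good (B N z Q D : ℕ) {L : ℕ} (w : Fin L → ℕ → ℝ) (t : ℕ) : Prop :=
  ∀ l, ∀ y d a : ℕ, y ≤ B * N → 1 ≤ d → (d : ℝ) ≤ Real.log N ^ Q →
    |primeSum (w l) t d a y - modelSum z (w l) t d a y| ≤ N / Real.log N ^ D

theorem nth_step (k : ℕ) (hk : 1 ≤ k) : Nat.nth Nat.Prime k + 2 ≤ Nat.nth Nat.Prime (k + 1) := by
  have hinf := Nat.infinite_setOfPred_prime
  have h1 : Nat.nth Nat.Prime k < Nat.nth Nat.Prime (k + 1) := Nat.nth_strictMono hinf (Nat.lt_succ_self k)
  have p1 : (Nat.nth Nat.Prime k).Prime := Nat.prime_nth_prime k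
  have p2 : (Nat.nth Nat.Prime (k + 1)).Prime := Nat.prime_nth_prime (k + 1)
  have h0 : Nat.nth Nat.Prime 0 < Nat.nth Nat.Prime k := Nat.nth_strictMono hinf (by omega)
  have h2 : 2 ≤ Nat.nth Nat.Prime 0 := (Nat.prime_nth_prime 0).two_le
  have o1 : Nat.nth Nat.Prime k % 2 = 1 := by
    rcases Nat.Prime.eq_two_or_odd p1 with h | h
    · omega
    · exact h
  have o2 : Nat.nth Nat.Prime (k + 1) % 2 = 1 := by
    rcases Nat.Prime.eq_two_or_odd p2 with h | h
    · omega
    · exact h
  omega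

theorem nth_lower (k : ℕ) : 2 * (k + 1) + 1 ≤ Nat.nth Nat.Prime (k + 1) := by
  induction k with
  | zero =>
      have hinf := Nat.infinite_setOfPred_prime
      have h0 : Nat.nth Nat.Prime 0 < Nat.nth Nat.Prime 1 := Nat.nth_strictMono hinf (by omega)
      have h2 : 2 ≤ Nat.nth Nat.Prime 0 := (Nat.prime_nth_prime 0).two_le
      simp only [zero_add]
      omega
  | succ n ih =>
      have := nth_step (n + 1) (by omega)
      omega

theorem v_lower (q : ℕ) (hq : 2 ≤ q) : q - 1 ≤ v q := by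
  obtain ⟨k, rfl⟩ : ∃ k, q = k + 2 := ⟨q - 2, by omega⟩
  unfold v
  have h := nth_lower k
  have e : k + 2 - 1 = k + 1 := by omega
  rw [e]
  omega

theorem v_lt (q : ℕ) (hq : 2 ≤ q) : v q < v (q + 1) := by
  obtain ⟨k, rfl⟩ : ∃ k, q = k + 2 := ⟨q - 2, by omega⟩
  unfold v
  have h := nth_lower k
  have h2 := nth_step (k + 1) (by omega)
  have e : k + 2 - 1 = k + 1 := by omega
  have e2 : k + 2 + 1 - 1 = k + 1 + 1 := by omega
  rw [e, e2]
  omega

theorem v_strict (a b : ℕ) (ha : 2 ≤ a) (hab : a < b) : v a < v b := by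
  induction b with
  | zero => omega
  | succ n ih =>
      rcases Nat.lt_or_ge a n with h | h
      · exact (ih h).trans (v_lt n (by omega))
      · have : a = n := by omega
        subst this
        exact v_lt a ha

theorem v_inj (a b : ℕ) (ha : 2 ≤ a) (hb : 2 ≤ b) (h : v a = v b) : a = b := by
  rcases lt_trichotomy a b with h1 | h1 | h1
  · have := v_strict a b ha h1
    omega
  · exact h1
  · have := v_strict b a hb h1
    omega

/-- the weight transported to the values -/
noncomputable def tw (w : ℕ → ℝ) (n : ℕ) : ℝ := ∑ q ∈ (Icc 2 (n + 1)).filter (fun q => v q = n), w q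

theorem tw_le (w : ℕ → ℝ) (hw : ∀ q, |w q| ≤ 1) (n : ℕ) : |tw w n| ≤ 1 := by
  unfold tw
  have hc : ((Icc 2 (n + 1)).filter (fun q => v q = n)).card ≤ 1 := by
    rw [card_le_one]
    intro a ha b hb
    rw [mem_filter, mem_Icc] at ha hb
    exact v_inj a b ha.1.1 hb.1.1 (ha.2.trans hb.2.symm)
  calc |∑ q ∈ (Icc 2 (n + 1)).filter (fun q => v q = n), w q|
      ≤ ∑ q ∈ (Icc 2 (n + 1)).filter (fun q => v q = n), |w q| := abs_sum_le_sum_abs _ _
    _ ≤ ∑ q ∈ (Icc 2 (n + 1)).filter (fun q => v q = n), (1 : ℝ) := sum_le_sum fun q _ => hw q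
    _ = (((Icc 2 (n + 1)).filter (fun q => v q = n)).card : ℝ) := by rw [sum_const, nsmul_eq_mul, mul_one]
    _ ≤ 1 := by exact_mod_cast hc

open Classical in
theorem transport (w : ℕ → ℝ) (R : ℕ → Prop) (g : ℕ → ℝ) (y : ℕ) :
    ∑ q ∈ (Icc 2 (y + 1)).filter (fun q => v q ≤ y ∧ R (v q)), w q * g (v q) =
      ∑ n ∈ (Icc 1 y).filter R, tw w n * g n := by
  have h1 : ∀ n ∈ (Icc 1 y).filter R, tw w n * g n =
      ∑ q ∈ (Icc 2 (y + 1)).filter (fun q => v q ≤ y ∧ R (v q)), if v q = n then w q * g (v q) else 0 := by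
    intro n hn
    rw [mem_filter, mem_Icc] at hn
    unfold tw
    rw [sum_mul, ← sum_filter]
    apply sum_congr
    · ext q
      rw [mem_filter, mem_filter, mem_filter, mem_Icc, mem_Icc]
      constructor
      · rintro ⟨⟨a1, a2⟩, a3⟩
        rw [a3]
        exact ⟨⟨⟨a1, by omega⟩, hn.1.2, hn.2⟩, rfl⟩
      · rintro ⟨⟨⟨a1, a2⟩, a3, a4⟩, a5⟩
        have := v_lower q a1
        exact ⟨⟨a1, by omega⟩, a5⟩
    · intro q hq
      rw [mem_filter, mem_filter] at hq
      rw [hq.2]
  rw [sum_congr rfl h1, sum_comm]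
  apply sum_congr rfl
  intro q hq
  rw [mem_filter, mem_Icc] at hq
  have h2 := v_lower q hq.1.1
  rw [sum_ite_eq, if_pos]
  rw [mem_filter, mem_Icc]
  exact ⟨⟨by omega, hq.2.1⟩, hq.2.2⟩

lemma prime_eq (w : ℕ → ℝ) (t d a y : ℕ) : primeSum w t d a y = Pool.Agent.U308.AP.PS (tw w) t d a y := by
  classical
  have h := transport w (fun n => n ≡ a [MOD d] ∧ (n + t).Prime) (fun n => Real.log ((n + t : ℕ) : ℝ)) y
  unfold primeSum Pool.Agent.U308.AP.PS
  convert h

lemma model_eq (z : ℕ) (w : ℕ → ℝ) (t d a y : ℕ) : modelSum z w t d a y = Pool.Agent.U308.AP.MS z (tw w) t d a y := by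
  classical
  have h := transport w (fun n => n ≡ a [MOD d] ∧ ∀ p : ℕ, p.Prime → p ≤ z → ¬ p ∣ n + t) (fun _ => (V z)⁻¹) y
  have e : V z = Pool.Agent.U308.AP.V z := rfl
  unfold modelSum Pool.Agent.U308.AP.MS
  simp only [div_eq_mul_inv, ← e]
  convert h

open Classical in
/-- Let `A`, `B`, `D`, `K`, `Q`, `T`, `U`, the integer `κ ≠ 0` and `δ > 0` be fixed. There is `B₀` such that for every `E`,
every large `N` and every integer `z` with `log ^ B₀ N ≤ z ≤ log ^ E N` the following holds, for every `y ≤ log ^ K N`,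
every integer `c` with `|c| ≤ B N` and any at most `log ^ T N` functions `w l` bounded by `1` (for example the indicators of
the sets of the primes `q = φ(k) + φ(n - k) / 2 + 1` with `p_q - q - 1` prime, for at most `log ^ T N` numbers `n`).

(1) Let `P` be an arbitrary set of primes which are at most `y`, with at least `y ^ (1 / 2 + δ)` and at least
`log ^ (1 + δ) N` elements. Then for all the integers `1 ≤ x ≤ N` composed of primes from `P`, up to a proportion of at most
`1 / log ^ U N` of them, ALL the natural numbers `t` with `|t - (c + κ x)| ≤ log ^ A N` are `Good`: the sums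
`primeSum` and `modelSum` differ by at most `N / log ^ D N`, for all `l`, all `y' ≤ B N` and all classes to all moduli
`d ≤ log ^ Q N`.

(2) In particular this holds for all the `y`-smooth integers `1 ≤ x ≤ N`, up to a proportion of at most `1 / log ^ U N` of
them, if `y ≥ log ^ (1 + δ) N`. -/
theorem result (A B D K Q T U : ℕ) (κ : ℤ) (hκ : κ ≠ 0) (δ : ℝ) (hδ : 0 < δ) :
    ∃ B₀ : ℕ, ∀ E : ℕ, ∃ N₀ : ℕ, ∀ N, N₀ ≤ N → ∀ z : ℕ, Real.log N ^ B₀ ≤ z → (z : ℝ) ≤ Real.log N ^ E →
      ∀ y : ℕ, (y : ℝ) ≤ Real.log N ^ K → ∀ c : ℤ, |c| ≤ B * N →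
      ∀ L : ℕ, (L : ℝ) ≤ Real.log N ^ T → ∀ w : Fin L → ℕ → ℝ, (∀ l q, |w l q| ≤ 1) →
      (∀ P : Finset ℕ, (∀ p ∈ P, p.Prime ∧ p ≤ y) → (y : ℝ) ^ (1 / 2 + δ) ≤ P.card → Real.log N ^ (1 + δ) ≤ P.card →
        (((composedOf P N).filter fun x : ℕ => ∃ t : ℕ, |((t - (c + κ * x) : ℤ) : ℝ)| ≤ Real.log N ^ A ∧
          ¬ Good B N z Q D w t).card : ℝ) ≤ ((composedOf P N).card : ℝ) / Real.log N ^ U) ∧
      (Real.log N ^ (1 + δ) ≤ y →
        (((smooth y N).filter fun x : ℕ => ∃ t : ℕ, |((t - (c + κ * x) : ℤ) : ℝ)| ≤ Real.log N ^ A ∧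
          ¬ Good B N z Q D w t).card : ℝ) ≤ ((smooth y N).card : ℝ) / Real.log N ^ U) := by
  obtain ⟨B₀, hB⟩ := Pool.Agent.U308.AP.ap2 κ hκ K B A T Q D U δ hδ
  refine ⟨B₀, fun E => ?_⟩
  obtain ⟨N₀, h0⟩ := hB E
  refine ⟨N₀, fun N hN z hz1 hz2 y hy' c hc L hL w hw => ?_⟩
  refine h0 N hN z hz1 hz2 y hy' (fun x : ℕ => ∃ t : ℕ, |((t - (c + κ * x) : ℤ) : ℝ)| ≤ Real.log N ^ A ∧
    ¬ Good B N z Q D w t) (fun x => inferInstance) ⟨c, hc, L, hL, fun l => tw (w l), ?_, ?_⟩
  · intro l q
    exact tw_le (w l) (hw l) q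
  · rintro x ⟨t, ht, hbad⟩
    unfold Good at hbad
    push Not at hbad
    obtain ⟨l, y', d, a, hy, hd1, hd2, hlt⟩ := hbad
    refine ⟨t, ht, l, y', d, a, hy, hd1, hd2, ?_⟩
    rw [prime_eq, model_eq] at hlt
    exact hlt

end Pool.Agent.Results.MP_61a569_nt.VerySmoothShifts
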